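import Mathlib

set_option autoImplicit false

namespace Pool.Agent.Results.MP_237b44_co.NotConsecutive

open Finset

/-- `ℤ` is the disjoint union of the translates `S + z`, `z ∈ Z`. -/
def IsTile (S : Finset ℤ) : Prop := ∃ Z : Set ℤ, ∀ x : ℤ, ∃! z, z ∈ Z ∧ x - z ∈ S

open Classical in
/-- the number of subsets of `M` that are tiles -/
noncomputable def T (M : Finset ℤ) : ℕ := (M.powerset.filter IsTile).card

def sub (E : Fin 10 → ℤ) (m : ℕ) : Finset ℤ := (univ.filter fun j : Fin 10 => m.testBit j).image E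

lemma mem_sub (E : Fin 10 → ℤ) (m : ℕ) (x : ℤ) :
    x ∈ sub E m ↔ ∃ j : Fin 10, m.testBit j = true ∧ E j = x := by simp [sub]

lemma ext10 (a b : ℕ) (ha : a < 1024) (hb : b < 1024)
    (h : ∀ j : Fin 10, a.testBit j = b.testBit j) : a = b := by
  apply Nat.eq_of_testBit_eq
  intro i
  by_cases hi : i < 10
  · exact h ⟨i, hi⟩
  · have : 2 ^ 10 ≤ 2 ^ i := Nat.pow_le_pow_right (by norm_num) (by omega)
    rw [Nat.testBit_lt_two_pow (by omega), Nat.testBit_lt_two_pow (by omega)]

/-! upper bound for `[10]` -/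
def E0 (j : Fin 10) : ℤ := j.1 + 1

def one (x : ℕ) : Bool := !(Nat.beq x 0) && Nat.beq (Nat.land x (Nat.sub x 1)) 0

def force (W : ℕ) (f : ℕ → Bool) : Bool := Nat.casesOn W (f 0) fun n => f (Nat.succ n)

lemma force_eq (W : ℕ) (f : ℕ → Bool) : force W f = f W := by cases W <;> rfl

def alive (S : ℕ) : ℕ → ℕ → Bool
  | 0, _ => true
  | t + 1, W => one (Nat.land W S) && force (Nat.mod (Nat.mul 2 W) 1024) fun V =>
      alive S t V || alive S t (Nat.succ V)

lemma alive_succ (S t W : ℕ) : alive S (t + 1) W =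
    (one (W &&& S) && (alive S t (2 * W % 1024) || alive S t ((2 * W + 1) % 1024))) := by
  rw [alive, force_eq, show (2 * W + 1) % 1024 = 2 * W % 1024 + 1 by omega]; rfl

def ok (S : ℕ) : Bool := (List.range 1024).any fun W => alive S 30 W

lemma one_spec : ∀ x < 1024, ∀ j : Fin 10, x.testBit j = true →
    (∀ k : Fin 10, x.testBit k = true → k = j) → one x = true := by decide +kernel

lemma step_spec : ∀ W < 1024, ∀ b : Bool, ∀ j : Fin 10,
    ((2 * W + b.toNat) % 1024).testBit j = if j.1 = 0 then b else W.testBit (j.1 - 1) := by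
  decide +kernel

def tbl : ℕ :=
  0x8000000000000002000200000000000802000000000000200008000000000088200000000000020200200000000008200800000000002200008200000000a002800000000002008002000000000800022000000000200000080000000082000a8000000202000008200000220a0000a28000020020200a02800a200a802282aa

lemma ch0 : ∀ m < 64, ok (0 + 2 * m + 1) = true → tbl.testBit (0 + 2 * m + 1) = true := by
  decide +kernel
lemma ch1 : ∀ m < 64, ok (128 + 2 * m + 1) = true → tbl.testBit (128 + 2 * m + 1) = true := by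
  decide +kernel
lemma ch2 : ∀ m < 64, ok (256 + 2 * m + 1) = true → tbl.testBit (256 + 2 * m + 1) = true := by
  decide +kernel
lemma ch3 : ∀ m < 64, ok (384 + 2 * m + 1) = true → tbl.testBit (384 + 2 * m + 1) = true := by
  decide +kernel
lemma ch4 : ∀ m < 64, ok (512 + 2 * m + 1) = true → tbl.testBit (512 + 2 * m + 1) = true := by
  decide +kernel
lemma ch5 : ∀ m < 64, ok (640 + 2 * m + 1) = true → tbl.testBit (640 + 2 * m + 1) = true := by
  decide +kernel
lemma ch6 : ∀ m < 64, ok (768 + 2 * m + 1) = true → tbl.testBit (768 + 2 * m + 1) = true := by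
  decide +kernel
lemma ch7 : ∀ m < 64, ok (896 + 2 * m + 1) = true → tbl.testBit (896 + 2 * m + 1) = true := by
  decide +kernel

lemma tbl_of_ok (m : ℕ) (hm : m < 1024) (ho : m % 2 = 1) (h : ok m = true) :
    tbl.testBit m = true := by
  by_cases h0 : m < 128
  · have := ch0 ((m - 0) / 2) (by omega)
    rw [show 0 + 2 * ((m - 0) / 2) + 1 = m by omega] at this
    exact this h
  by_cases h1 : m < 256
  · have := ch1 ((m - 128) / 2) (by omega)
    rw [show 128 + 2 * ((m - 128) / 2) + 1 = m by omega] at this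
    exact this h
  by_cases h2 : m < 384
  · have := ch2 ((m - 256) / 2) (by omega)
    rw [show 256 + 2 * ((m - 256) / 2) + 1 = m by omega] at this
    exact this h
  by_cases h3 : m < 512
  · have := ch3 ((m - 384) / 2) (by omega)
    rw [show 384 + 2 * ((m - 384) / 2) + 1 = m by omega] at this
    exact this h
  by_cases h4 : m < 640
  · have := ch4 ((m - 512) / 2) (by omega)
    rw [show 512 + 2 * ((m - 512) / 2) + 1 = m by omega] at this
    exact this h
  by_cases h5 : m < 768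
  · have := ch5 ((m - 640) / 2) (by omega)
    rw [show 640 + 2 * ((m - 640) / 2) + 1 = m by omega] at this
    exact this h
  by_cases h6 : m < 896
  · have := ch6 ((m - 768) / 2) (by omega)
    rw [show 768 + 2 * ((m - 768) / 2) + 1 = m by omega] at this
    exact this h
  by_cases h7 : m < 1024
  · have := ch7 ((m - 896) / 2) (by omega)
    rw [show 896 + 2 * ((m - 896) / 2) + 1 = m by omega] at this
    exact this h
  omega

def norm : ℕ → ℕ → ℕ
  | 0, m => m
  | f + 1, m => if m % 2 = 0 then norm f (m / 2) else m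

lemma norm_odd : ∀ m < 1024, m ≠ 0 → norm 10 m < 1024 ∧ norm 10 m % 2 = 1 := by decide +kernel

lemma half_spec : ∀ m < 1024, m % 2 = 0 → m.testBit 0 = false ∧ (m / 2).testBit 9 = false ∧
    ∀ j < 9, (m / 2).testBit j = m.testBit (j + 1) := by decide +kernel

lemma count0 : ((range 1024).filter fun m => tbl.testBit (norm 10 m) = true).card = 210 := by
  decide +kernel

lemma tile_half (m : ℕ) (hm : m < 1024) (he : m % 2 = 0) (h : IsTile (sub E0 m)) :
    IsTile (sub E0 (m / 2)) := by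
  obtain ⟨Z, hZ⟩ := h
  obtain ⟨h0, h9, hj⟩ := half_spec m hm he
  have key : ∀ y, y ∈ sub E0 (m / 2) ↔ y + 1 ∈ sub E0 m := by
    intro y
    simp only [mem_sub, E0]
    constructor
    · rintro ⟨j, h1, h2⟩
      have : j.1 < 9 := by
        by_contra hc
        rw [show j.1 = 9 by omega, h9] at h1
        exact absurd h1 (by decide)
      exact ⟨⟨j.1 + 1, by omega⟩, by rw [← hj _ this]; exact h1, by push_cast; omega⟩
    · rintro ⟨j, h1, h2⟩
      have : j.1 ≠ 0 := by
        intro hc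
        rw [hc, h0] at h1
        exact absurd h1 (by decide)
      refine ⟨⟨j.1 - 1, by omega⟩, ?_, by simp only; omega⟩
      simp only
      rw [hj _ (by omega), show j.1 - 1 + 1 = j.1 by omega]; exact h1
  refine ⟨Z, fun x => ?_⟩
  simp only [key, show ∀ z, x - z + 1 = x + 1 - z from fun z => by ring]
  exact hZ (x + 1)

lemma tile_norm (f : ℕ) : ∀ m < 1024, IsTile (sub E0 m) → IsTile (sub E0 (norm f m)) := by
  induction f with
  | zero => intro m _ h; exact h
  | succ f ih =>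
    intro m hm h
    unfold norm
    split_ifs with e
    · exact ih _ (by omega) (tile_half m hm e h)
    · exact h

lemma ok_of_tile (m : ℕ) (h : IsTile (sub E0 m)) : ok m = true := by
  classical
  obtain ⟨Z, hZ⟩ := h
  let W : ℤ → ℕ := fun y => Nat.ofBits fun j : Fin 10 => decide (y - j.1 ∈ Z)
  have hlt : ∀ y, W y < 1024 := fun y => Nat.ofBits_lt_two_pow _
  have hb : ∀ y (j : Fin 10), (W y).testBit j = decide (y - j.1 ∈ Z) := fun y j =>
    Nat.testBit_ofBits_lt _ _ j.2
  have hv : ∀ y, one (W y &&& m) = true := by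
    intro y
    obtain ⟨z, ⟨hz, hs⟩, hu⟩ := hZ (y + 1)
    obtain ⟨j, hj, e⟩ := (mem_sub _ _ _).1 hs
    simp only [E0] at e
    apply one_spec _ (lt_of_le_of_lt Nat.and_le_left (hlt y)) j
    · rw [Nat.testBit_and, hb, hj, show y - j.1 = z by omega]; simpa using hz
    · intro k hk
      rw [Nat.testBit_and, hb] at hk
      simp only [Bool.and_eq_true, decide_eq_true_eq] at hk
      have := hu (y - k.1) ⟨hk.1, (mem_sub _ _ _).2 ⟨k, hk.2, by simp only [E0]; ring⟩⟩
      ext; omega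
  have hs : ∀ y, W (y + 1) = (2 * W y + (decide (y + 1 ∈ Z)).toNat) % 1024 := by
    intro y
    apply ext10 _ _ (hlt _) (Nat.mod_lt _ (by norm_num))
    intro j
    rw [step_spec _ (hlt y), hb]
    split_ifs with e
    · simp [e]
    · have := hb y ⟨j.1 - 1, by omega⟩
      simp only at this
      rw [this]
      congr 2
      omega
  have key : ∀ t y, alive m t (W y) = true := by
    intro t
    induction t with
    | zero => intro y; rfl
    | succ t ih =>
      intro y
      have := ih (y + 1)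
      rw [hs] at this
      simp only [alive_succ, hv, Bool.true_and, Bool.or_eq_true]
      by_cases e : y + 1 ∈ Z
      · right; simpa [e] using this
      · left; simpa [e] using this
  simp only [ok, List.any_eq_true, List.mem_range]
  exact ⟨W 0, hlt 0, key 30 0⟩

lemma upper : T (Icc 1 10) ≤ 210 := by
  classical
  rw [← count0]
  refine le_trans (card_le_card ?_) (card_image_le (f := sub E0))
  intro S hS
  simp only [mem_filter, mem_powerset] at hS
  let m := Nat.ofBits fun j : Fin 10 => decide (E0 j ∈ S)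
  have e : sub E0 m = S := by
    ext x
    rw [mem_sub]
    constructor
    · rintro ⟨j, hj, rfl⟩
      rw [Nat.testBit_ofBits_lt _ _ j.2] at hj
      simpa using hj
    · intro hx
      have := mem_Icc.1 (hS.1 hx)
      have e2 : E0 ⟨(x - 1).toNat, by omega⟩ = x := by simp only [E0]; omega
      refine ⟨_, ?_, e2⟩
      rw [Nat.testBit_ofBits_lt _ _ (Fin.isLt _), decide_eq_true_eq]
      exact e2.symm ▸ hx
  have hm : m < 1024 := Nat.ofBits_lt_two_pow _
  have ht : IsTile (sub E0 m) := e ▸ hS.2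
  have h0 : m ≠ 0 := by
    intro h0
    obtain ⟨Z, hZ⟩ := ht
    obtain ⟨z, ⟨-, hz⟩, -⟩ := hZ 0
    obtain ⟨j, hj, -⟩ := (mem_sub _ _ _).1 hz
    simp [h0] at hj
  obtain ⟨n1, n2⟩ := norm_odd m hm h0
  exact mem_image.2 ⟨m, mem_filter.2 ⟨mem_range.2 hm,
    tbl_of_ok _ n1 n2 (ok_of_tile _ (tile_norm 10 m hm ht))⟩, e⟩

/-! lower bound for `M` -/
def E1 : Fin 10 → ℤ := ![0, 152, 301, 313, 582, 590, 643, 884, 991, 1074]

def G : List (ℕ × ℕ × ℕ) := [(1, 1, 1), (2, 1, 1), (3, 16, 255), (4, 1, 1), (5, 2, 1), (6, 2, 1),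
  (7, 3, 1), (8, 1, 1), (9, 2, 1), (10, 2, 1), (11, 3, 1), (12, 8, 15), (16, 1, 1), (17, 4, 3),
  (18, 4, 3), (20, 2, 1), (22, 3, 1), (24, 2, 1), (26, 3, 1), (32, 1, 1), (33, 4, 3), (34, 4, 3),
  (36, 2, 1), (37, 3, 1), (40, 2, 1), (41, 3, 1), (48, 16, 255), (51, 16, 51), (52, 3, 1), (56, 3,
  1), (64, 1, 1), (65, 2, 1), (66, 2, 1), (67, 3, 1), (68, 4, 3), (72, 4, 3), (80, 2, 1), (82, 3,
  1), (85, 4, 1), (86, 4, 1), (89, 4, 1), (90, 4, 1), (96, 2, 1), (97, 3, 1), (101, 4, 1), (102,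
  4, 1), (105, 4, 1), (106, 4, 1), (112, 3, 1), (119, 12, 9), (123, 12, 9), (128, 1, 1), (129, 8,
  15), (130, 8, 15), (132, 2, 1), (133, 3, 1), (136, 2, 1), (137, 3, 1), (141, 8, 5), (142, 8, 5),
  (143, 5, 1), (144, 4, 3), (148, 3, 1), (152, 3, 1), (157, 5, 1), (160, 4, 3), (162, 9, 7), (174,
  5, 1), (188, 5, 1), (192, 2, 1), (193, 3, 1), (199, 5, 1), (208, 3, 1), (212, 4, 1), (213, 5,
  1), (216, 4, 1), (228, 4, 1), (230, 5, 1), (232, 4, 1), (244, 5, 1), (245, 12, 9), (249, 12, 9),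
  (256, 1, 1), (257, 2, 1), (258, 2, 1), (259, 3, 1), (260, 4, 3), (264, 4, 3), (268, 9, 7), (272,
  2, 1), (274, 3, 1), (277, 4, 1), (278, 4, 1), (281, 4, 1), (282, 4, 1), (288, 2, 1), (289, 3,
  1), (293, 4, 1), (294, 4, 1), (297, 4, 1), (298, 4, 1), (304, 3, 1), (311, 12, 9), (315, 12, 9),
  (320, 8, 15), (328, 9, 7), (332, 8, 3), (384, 2, 1), (385, 3, 1), (395, 5, 1), (400, 3, 1),
  (404, 4, 1), (408, 4, 1), (409, 5, 1), (420, 4, 1), (424, 4, 1), (426, 5, 1), (430, 18, 21),
  (437, 12, 9), (440, 5, 1), (441, 12, 9), (449, 8, 5), (450, 8, 5), (451, 5, 1), (465, 5, 1),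
  (482, 5, 1), (490, 18, 21), (496, 5, 1), (512, 1, 1), (513, 4, 3), (514, 4, 3), (516, 2, 1),
  (518, 3, 1), (520, 2, 1), (522, 3, 1), (527, 5, 1), (528, 8, 15), (529, 9, 7), (540, 8, 5),
  (541, 5, 1), (544, 8, 15), (548, 3, 1), (552, 3, 1), (556, 8, 5), (558, 5, 1), (572, 5, 1),
  (576, 2, 1), (578, 3, 1), (581, 4, 1), (582, 4, 1), (583, 5, 1), (585, 4, 1), (586, 4, 1), (597,
  5, 1), (608, 3, 1), (614, 5, 1), (615, 12, 9), (619, 12, 9), (628, 5, 1), (640, 4, 3), (644, 3,
  1), (648, 3, 1), (657, 8, 3), (658, 8, 3), (670, 24, 585), (673, 8, 3), (674, 8, 3), (704, 3,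
  1), (708, 4, 1), (712, 4, 1), (741, 12, 9), (745, 12, 9), (768, 2, 1), (770, 3, 1), (773, 4, 1),
  (774, 4, 1), (777, 4, 1), (778, 4, 1), (779, 5, 1), (793, 5, 1), (797, 18, 21), (800, 3, 1),
  (807, 12, 9), (810, 5, 1), (811, 12, 9), (824, 5, 1), (835, 5, 1), (848, 8, 5), (849, 5, 1),
  (857, 18, 21), (864, 8, 5), (866, 5, 1), (880, 5, 1), (883, 7, 1), (886, 7, 1), (889, 7, 1),
  (892, 7, 1), (896, 3, 1), (900, 4, 1), (904, 4, 1), (933, 12, 9), (937, 12, 9), (959, 9, 1),
  (978, 24, 585), (979, 7, 1), (982, 7, 1), (985, 7, 1), (988, 7, 1), (989, 8, 1), (990, 8, 1),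
  (1005, 8, 1), (1006, 8, 1), (1019, 9, 1), (1023, 20, 33)]

def inB (c : ℕ × ℕ) (z : ℤ) : Bool := c.2.testBit (z % c.1).toNat

def goodc (m : ℕ) (c : ℕ × ℕ) : Prop := 0 < c.1 ∧ ∀ r < c.1, ∃ j : Fin 10,
  (m.testBit j = true ∧ inB c (r - E1 j) = true) ∧
    ∀ k : Fin 10, m.testBit k = true → inB c (r - E1 k) = true → k = j

instance (m : ℕ) (c : ℕ × ℕ) : Decidable (goodc m c) := by unfold goodc; infer_instance

lemma G_good : ∀ g ∈ G, g.1 < 1024 ∧ goodc g.1 g.2 := by decide +kernel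

lemma count1 : (G.map Prod.fst).toFinset.card = 214 := by decide +kernel

lemma tile_of_good (m : ℕ) (c : ℕ × ℕ) (h : goodc m c) : IsTile (sub E1 m) := by
  obtain ⟨h0, h⟩ := h
  refine ⟨{z | inB c z = true}, fun x => ?_⟩
  have p0 : (0 : ℤ) < c.1 := by exact_mod_cast h0
  have r1 := Int.emod_nonneg x p0.ne'
  have r2 := Int.emod_lt_of_pos x p0
  obtain ⟨j, ⟨h1, h2⟩, h3⟩ := h (x % c.1).toNat (by omega)
  have e : ∀ s : ℤ, inB c (((x % c.1).toNat : ℕ) - s) = inB c (x - s) := by
    intro s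
    rw [Int.toNat_of_nonneg r1, inB, inB, Int.emod_sub_emod]
  refine ⟨x - E1 j, ⟨(e _).symm.trans h2, (mem_sub _ _ _).2 ⟨j, h1, by ring⟩⟩, ?_⟩
  rintro z ⟨hz, hs⟩
  obtain ⟨k, hk, e2⟩ := (mem_sub _ _ _).1 hs
  have : z = x - E1 k := by omega
  rw [← h3 k hk (by rw [e, ← this]; exact hz), this]

lemma E1_inj : Function.Injective E1 := by decide

lemma lower : 214 ≤ T (univ.image E1) := by
  classical
  rw [← count1]
  have hG : ∀ m ∈ (G.map Prod.fst).toFinset, m < 1024 ∧ IsTile (sub E1 m) := by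
    intro m hm
    obtain ⟨g, hg, rfl⟩ := List.mem_map.1 (List.mem_toFinset.1 hm)
    exact ⟨(G_good g hg).1, tile_of_good _ _ (G_good g hg).2⟩
  apply card_le_card_of_injOn (sub E1)
  · intro m hm
    simp only [coe_filter, mem_powerset, Set.mem_ofPred_eq]
    exact ⟨image_subset_image (filter_subset _ _), (hG m hm).2⟩
  · intro a ha b hb e
    apply ext10 _ _ (hG a ha).1 (hG b hb).1
    intro j
    have := congrArg (fun S => E1 j ∈ S) e
    simp only [mem_sub, E1_inj.eq_iff, exists_eq_right, eq_iff_iff] at this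
    exact Bool.eq_iff_iff.2 this

theorem result : ∃ (n : ℕ) (M : Finset ℤ), M.card = n ∧ T (Icc 1 (n : ℤ)) < T M := by
  refine ⟨10, univ.image E1, by rw [card_image_of_injective _ E1_inj]; simp, ?_⟩
  have h1 := upper
  have h2 := lower
  push_cast
  omega

end Pool.Agent.Results.MP_237b44_co.NotConsecutive
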